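import Pool.Agent.H41.SC4

set_option autoImplicit false

open MeasureTheory ProbabilityTheory Filter Set Pool.Agent.H41.SC
open scoped NNReal ENNReal Topology

theorem Pool.Agent.Results.MP_f3f192_pr.NoVersion.result (Ω : Type) (m : MeasurableSpace Ω)
    (P : Measure Ω) (ℱ : Filtration ℝ≥0 m) (W : ℝ≥0 → Ω → ℝ) (hW : IsFBM ℱ W P)
    (T : ℝ≥0) (hT : 0 < T) :
    ∃ (X : Type) (_ : NormedAddCommGroup X) (_ : InnerProductSpace ℝ X) (_ : CompleteSpace X)
      (S : ℝ≥0 → X →L[ℝ] X), S 0 = 1 ∧ (∀ s t, S (s + t) = S s * S t) ∧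
      (∀ x, Continuous fun t => S t x) ∧
      ∃ g : ℝ≥0 → Ω → X, IsStronglyProgressive ℱ g ∧
        MemLp (Function.uncurry g) 2 (leb.prod P) ∧
        (∀ t, ∃ Y, IsIto ℱ W P (fun s ω => (Iic t).indicator (fun s => S (t - s) (g s ω)) s) Y) ∧
        ∀ u : ℝ≥0 → Ω → X, (∀ t ≤ T,
          IsIto ℱ W P (fun s ω => (Iic t).indicator (fun s => S (t - s) (g s ω)) s) (u t)) →
          ¬ ∃ v : ℝ≥0 → Ω → X, (∀ t ≤ T, v t =ᵐ[P] u t) ∧
            ∀ᵐ ω ∂P, ContinuousOn (fun t => v t ω) (Iic T) := by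
  have := hW.prob
  have q1 := q0_lt
  have q2 : 0 ≤ q0 := measureReal_nonneg
  obtain ⟨q, hq, hq1⟩ := exists_between q1
  have q3 : 0 < q := q2.trans_lt hq
  obtain ⟨θ, θ0, hθ⟩ : ∃ θ > 0, q0 / q + θ < 1 :=
    ⟨(1 - q0 / q) / 2, by linarith [(div_lt_one q3).2 hq], by linarith [(div_lt_one q3).2 hq]⟩
  let a : ℕ → ℝ≥0 := fun n => T / 2 * 2⁻¹ ^ n
  have a0 : ∀ n, 0 < a n := fun n => by positivity
  have a2 : ∀ n, 2 * a n = T * 2⁻¹ ^ n := fun n => by simp only [a]; field_simp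
  have hε : ∀ n, ∃ ε : ℝ, 0 < ε ∧ (V (a n) (4 ^ n)).card * (bb (2 * n + 1) ^ 2 * ε) ^ 2 < θ := fun n =>
    (Filter.Eventually.and (f := 𝓝[>] (0 : ℝ)) self_mem_nhdsWithin (nhdsWithin_le_nhds
      ((by fun_prop : Continuous fun ε : ℝ => (V (a n) (4 ^ n)).card *
        (bb (2 * n + 1) ^ 2 * ε) ^ 2).continuousAt.eventually_lt continuousAt_const
          (by simpa using θ0)))).exists
  choose ε ε0 hε using hε
  have hη : ∀ n, ∃ η : ℝ≥0, 0 < η ∧ η ^ 2 ≤ ta (a n) (2 * 4 ^ n) ∧ ∀ x ∈ Icc 0 T, ∀ y ∈ Icc 0 T,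
      dist x y ≤ (η ^ 2 : ℝ≥0) → dist (ps (a n) (4 ^ n) x) (ps (a n) (4 ^ n) y) ≤ ε n := fun n => by
    obtain ⟨δ, δ0, hδ⟩ := Metric.uniformContinuousOn_iff_le.1 ((isCompact_Icc (a := 0)
      (b := T)).uniformContinuousOn_of_continuous (ps_cont (a n) (4 ^ n)).continuousOn) _ (ε0 n)
    lift δ to ℝ≥0 using δ0.le
    refine ⟨NNReal.sqrt (min δ (ta (a n) (2 * 4 ^ n))), NNReal.sqrt_pos.2 (lt_min δ0 ?_), ?_, ?_⟩
    · have := a0 n
      unfold ta; positivity
    · rw [NNReal.sq_sqrt]; exact min_le_right _ _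
    · rw [NNReal.sq_sqrt]; exact fun x hx y hy h => hδ x hx y hy (h.trans (by simp))
  choose η η0 hh hΨ using hη
  let γ := fun n => (blk hW (hh n) 1).val
  let y := fun n => ‖Y2 (2 * n + 1)‖
  let c : ℕ → ℝ := fun n => (17 / 18) ^ n / (y n * 2 ^ n * η n)
  let v : ℕ → XX := fun n => lp.single 2 n (c n • Y2 (2 * n + 1))
  have b1 : ∀ n, 1 ≤ bb n := fun n => (one_le_pow₀ (by norm_num)).trans (bb_ge n)
  have hy : ∀ n, y n ^ 2 = bb (2 * n + 1) * (2 * (2 ^ n) ^ 2) := fun n => by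
    rw [Y_sq.2]; ring
  have y1 : ∀ n, 1 ≤ y n := fun n => (alg (δ := 4 * 2 ^ n + 1) (s := 1) (hy n) (norm_nonneg _) (b1 _)
    (one_le_pow₀ one_le_two) one_pos le_rfl (by nlinarith [b1 (2 * n + 1), pow_pos (two_pos (α := ℝ)) n])).1
  have c0 : ∀ n, 0 ≤ c n := fun n => by positivity
  have sq : ∀ n, c n * y n * √((4 ^ n : ℕ) * (η n ^ 2 : ℝ≥0)) = (17 / 18) ^ n := fun n => by
    have := y1 n
    have := η0 n
    rw [show ((4 ^ n : ℕ) * (η n ^ 2 : ℝ≥0) : ℝ) = (2 ^ n * η n) ^ 2 by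
      push_cast; rw [mul_pow, ← pow_mul, mul_comm n, pow_mul]; norm_num, Real.sqrt_sq (by positivity)]
    simp only [c]
    field_simp
  have hs : ∀ p, Summable fun n => γ n p • v n := fun p => by
    refine summable_zero.congr_atTop ?_
    by_cases h : p.1 = 0
    · exact .of_forall fun n => by
        simp only [show γ n p = 0 from of_not_not fun e => (blk_supp hW (hh n) e).1 h, zero_smul]
    · have t := (NNReal.tendsto_pow_atTop_nhds_zero_of_lt_one (r := 2⁻¹) (by norm_num)).const_mul T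
      rw [mul_zero] at t
      filter_upwards [t.eventually (gt_mem_nhds (pos_iff_ne_zero.2 h))] with n hn
      rw [show γ n p = 0 from of_not_not fun e => hn.not_ge ((blk_supp hW (hh n) e).2.trans_eq (a2 n)),
        zero_smul]
  have hn : ∀ (K : ℝ) (f : ℕ → ℝ≥0 × Ω → XX), 0 ≤ K → (∀ n p, ‖f n p‖ ≤ K * ‖γ n p • v n‖) →
      ∑' n, eLpNorm (f n) 2 (leb.prod P) ≠ ∞ := fun K f K0 hf => by
    refine ne_top_of_le_ne_top ?_ (ENNReal.tsum_le_tsum (g := fun n => ENNReal.ofReal (K * (17 / 18) ^ n))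
      fun n => (eLpNorm_le_mul_eLpNorm_of_ae_le_mul (c := K * (c n * y n)) (g := γ n)
        (ae_of_all _ fun p => (hf n p).trans_eq ?_) 2).trans
        ((mul_le_mul' le_rfl (blk_norm hW (hh n))).trans_eq ?_))
    · rw [← ENNReal.ofReal_tsum_of_nonneg (fun n => by positivity)
        ((summable_geometric_of_lt_one (by norm_num) (by norm_num)).mul_left K)]
      simp
    · rw [norm_smul, lp.norm_single two_pos, norm_smul, Real.norm_of_nonneg (c0 n)]; ring
    · rw [← ENNReal.ofReal_mul (by have := c0 n; positivity), mul_assoc, sq]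
  let g : ℝ≥0 → Ω → XX := fun s ω => ∑' n, γ n (s, ω) • v n
  let φ := fun (t : ℝ≥0) n (p : ℝ≥0 × Ω) => (Iic t).indicator (fun s => γ n p • SS a (t - s) (v n)) p.1
  have hφ : ∀ t p, HasSum (φ t · p) (Function.uncurry
      (fun s ω => (Iic t).indicator (fun s => SS a (t - s) (g s ω)) s) p) := fun t p => by
    by_cases h : p.1 ∈ Iic t
    · simpa only [φ, Function.uncurry, indicator_of_mem h, map_smul] using
        (hs p).hasSum.mapL (SS a (t - p.1))
    · simpa only [φ, Function.uncurry, indicator_of_notMem h] using hasSum_zero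
  have ap : ∀ t, Ap ℱ P (Function.uncurry
      fun s ω => (Iic t).indicator (fun s => SS a (t - s) (g s ω)) s) := fun t =>
    Ap.tsum (fun n => Ap.elem _ ((SS_cont a (v n)).comp (by fun_prop)) t) (hφ t)
      (hn 18 _ (by norm_num) fun n p => (norm_indicator_le_norm_self _ _).trans
        ((congrArg norm (map_smul (SS a _) _ _)).symm.trans_le ((SS a _).le_of_opNorm_le (SS_le _ _) _)))
  refine ⟨XX, inferInstance, inferInstance, inferInstance, SS a,
    ContinuousLinearMap.ext fun x => lp.ext (funext fun n => SB_zero _ _),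
    fun s t => ContinuousLinearMap.ext fun x => lp.ext (funext fun n => SB_add _ _ _ _), SS_cont a, g,
    isStronglyProgressive_of_tendsto (U := fun N s ω => ∑ n ∈ Finset.range N, γ n (s, ω) • v n)
      (fun N => IsStronglyProgressive.finsetSum fun n _ t =>
        ((blk hW (hh n) 1).prog t).smul_const _) (tendsto_pi_nhds.2 fun s => tendsto_pi_nhds.2 fun ω =>
          (hs (s, ω)).hasSum.tendsto_sum_nat), ?_, fun t => exists_ito hW (ap t), ?_⟩
  · have := tsum_le (μ := leb.prod P) (fun n => ((blk hW (hh n) 1).val_m.smul_const (v n)).aestronglyMeasurable)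
      fun p => (hs p).hasSum
    exact ⟨this.1, this.2.trans_lt (hn 1 _ zero_le_one fun _ _ => (one_mul _).ge).lt_top⟩
  rintro u hu ⟨w, hw, hc⟩
  let B := fun M : ℕ => {ω | ContinuousOn (fun t => w t ω) (Iic T) → ∀ t ≤ T, ‖w t ω‖ ≤ M}
  have hB : ⋃ M, B M = univ := eq_univ_of_forall fun ω => by
    by_cases h : ContinuousOn (fun t => w t ω) (Iic T)
    · obtain ⟨C, hC⟩ := (isCompact_Icc (a := 0)).exists_bound_of_continuousOn (h.mono Icc_subset_Iic_self)
      exact mem_iUnion.2 ⟨⌈C⌉₊, fun _ t ht => (hC t ⟨zero_le, ht⟩).trans (Nat.le_ceil C)⟩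
    · exact mem_iUnion.2 ⟨0, fun h' => (h h').elim⟩
  have hm : Monotone B := fun M N h ω e e' t ht => (e e' t ht).trans (by exact_mod_cast h)
  refine (ENNReal.ofReal_lt_one.2 hθ).not_ge ?_
  rw [← measure_univ (μ := P), ← hB, hm.measure_iUnion]
  refine iSup_le fun M => ?_
  obtain ⟨n, hM⟩ := pow_unbounded_of_one_lt (4 * (M + 1) / (1 - q) : ℝ) (by norm_num : (1 : ℝ) < 17 / 16)
  let Λ : XX →L[ℝ] ℝ := innerSL ℝ (lp.single 2 n (Y1 (2 * n + 1)))
  have := bad hW (hh n) (a0 n) (η0 n) (by positivity) ((a2 n).trans_le (mul_le_of_le_one_right'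
    (pow_le_one₀ zero_le (by norm_num)))) Λ hu (fun t => (ap t).1) (c := c n * bb (2 * n + 1) ^ 2)
    (by have := c0 n; positivity) (ε0 n).le q3 (fun t p => by
      refine ((hφ t p).mapL Λ).unique ?_
      convert hasSum_single n fun k hk => ?_
      · by_cases h : p.1 ∈ Iic t
        · simp only [φ, v, Λ, indicator_of_mem h, SS_single, map_smul, innerSL_apply_apply,
            lp.inner_single_left, lp.single_apply_self, real_inner_smul_right, Y_in, smul_eq_mul, ps]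
          rw [show 2 * 4 ^ n = 2 ^ (2 * n + 1) by rw [pow_succ, pow_mul]; ring, mul_assoc]
        · simp [φ, indicator_of_notMem h, tsub_eq_zero_of_le (notMem_Iic.1 h).le, ps, rr, ee]
      · by_cases h : p.1 ∈ Iic t
        · simp only [φ, v, Λ, indicator_of_mem h, SS_single, map_smul, innerSL_apply_apply,
            lp.inner_single_left, lp.single_apply_ne _ _ _ hk.symm, inner_zero_right, smul_zero]
        · simp [φ, indicator_of_notMem h]) (hΨ n)
  refine (measure_mono_ae ?_).trans ((ENNReal.le_ofReal_iff_toReal_le (measure_ne_top _ _)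
    (by positivity)).2 (this.trans (add_le_add le_rfl (le_trans ?_ (hε n).le))))
  · have e : ∀ᵐ ω ∂P, ∀ t ∈ (V (a n) (4 ^ n)).filter (· ≤ T), w t ω = u t ω :=
      (eventually_all_finset _).2 fun t ht => hw t (Finset.mem_filter.1 ht).2
    filter_upwards [hc, e] with ω h1 h2 h3 t ht hT
    rw [← h2 t (Finset.mem_filter.2 ⟨ht, hT⟩)]
    refine (real_inner_le_norm (lp.single 2 n (Y1 (2 * n + 1)) : XX) (w t ω)).trans_lt ?_
    rw [lp.norm_single two_pos, show ‖Y1 (2 * n + 1)‖ = y n from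
      (sq_eq_sq₀ (norm_nonneg _) (norm_nonneg _)).1 (Y_sq.1.trans Y_sq.2.symm),
      show ((4 ^ n : ℕ) : ℝ) = (2 ^ n) ^ 2 by push_cast; rw [← pow_mul, mul_comm n, pow_mul]; norm_num]
    refine (mul_le_mul_of_nonneg_left (h3 h1 t hT) (norm_nonneg _)).trans_lt (alg (hy n) (norm_nonneg _)
      (b1 _) (one_le_pow₀ one_le_two) (η0 n) M.cast_nonneg ?_).2
    rw [div_lt_iff₀ (sub_pos.2 hq1)] at hM
    refine (mul_lt_mul_of_pos_right hM (by positivity)).trans_le ?_
    rw [mul_right_comm]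
    refine mul_le_mul_of_nonneg_right (le_trans ?_ (mul_le_mul_of_nonneg_left (bb_ge _) (by positivity)))
      (sub_pos.2 hq1).le
    rw [pow_succ, pow_mul, ← mul_assoc, ← mul_pow, ← mul_pow]
    norm_num
  · have := sq n
    have h1 : (17 / 18 : ℝ) ^ n ≤ 1 := pow_le_one₀ (by norm_num) (by norm_num)
    have h2 : c n * √((4 ^ n : ℕ) * (η n ^ 2 : ℝ≥0)) ≤ 1 := by
      nlinarith [y1 n, mul_nonneg (c0 n) (Real.sqrt_nonneg ((4 ^ n : ℕ) * (η n ^ 2 : ℝ≥0)))]
    have := c0 n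
    have := ε0 n
    gcongr _ * ?_ ^ 2
    linarith [mul_le_mul_of_nonneg_left h2 (by positivity : 0 ≤ bb (2 * n + 1) ^ 2 * ε n)]
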